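import Mathlib
import Pool.Agent.Helper753.MBP6

/-!
# Metabelian-by-polycyclic groups with finitely generated centralizers are polycyclic

Partial answer to MP_3540e7_al (Q1).
-/

set_option autoImplicit false

namespace Pool.Agent.Results.MP_3540e7_al.MetabelianByPolycyclic

universe u

open Subgroup in
/-- **Theorem.** (1) Let `G` be a metabelian-by-polycyclic group (`N` normal in `G` with
`N'' = 1`, and `G / N` soluble with all subgroups finitely generated, i.e. polycyclic). If the
centralizer of every finitely generated subgroup of `G` is finitely generated, then every subgroup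
of `G` is finitely generated (so `G`, which is soluble, is polycyclic).
(2) In particular this holds for every soluble group of derived length at most three. -/
theorem result :
    (∀ (G : Type u) [Group G] (N : Subgroup G) [N.Normal],
      ⁅⁅N, N⁆, ⁅N, N⁆⁆ = ⊥ → IsSolvable (G ⧸ N) → (∀ K : Subgroup (G ⧸ N), K.FG) →
      (∀ H : Subgroup G, H.FG → (Subgroup.centralizer (H : Set G)).FG) →
      ∀ K : Subgroup G, K.FG) ∧
    (∀ (G : Type u) [Group G], derivedSeries G 3 = ⊥ →
      (∀ H : Subgroup G, H.FG → (Subgroup.centralizer (H : Set G)).FG) →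
      ∀ K : Subgroup G, K.FG) := by
  have h1 : ∀ (G : Type u) [Group G] (N : Subgroup G) [N.Normal],
      ⁅⁅N, N⁆, ⁅N, N⁆⁆ = ⊥ → IsSolvable (G ⧸ N) → (∀ K : Subgroup (G ⧸ N), K.FG) →
      (∀ H : Subgroup G, H.FG → (Subgroup.centralizer (H : Set G)).FG) →
      ∀ K : Subgroup G, K.FG := by
    intro G _ N _ hmet hsol hpc hC K
    refine MBP.main (A := ⁅N, N⁆) (L := N) (Subgroup.commutator_le_left N N) ?_ ?_ hsol hpc hC K
    · intro a ha b hb
      have h := Subgroup.commutator_mem_commutator ha hb
      rw [hmet, Subgroup.mem_bot, commutatorElement_def] at h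
      rw [mul_inv_eq_one, mul_inv_eq_iff_eq_mul] at h
      exact h
    · intro x hx y hy
      have h := Subgroup.commutator_mem_commutator hx hy
      rwa [commutatorElement_def] at h
  refine ⟨h1, ?_⟩
  intro G _ hG hC
  refine h1 G (commutator G) ?_ ?_ ?_ hC
  · have h2 : derivedSeries G 3 = ⁅⁅commutator G, commutator G⁆, ⁅commutator G, commutator G⁆⁆ := by
      rw [derivedSeries_succ, derivedSeries_succ, derivedSeries_one]
    rw [← h2]
    exact hG
  · have : ∀ x y : G ⧸ commutator G, x * y = y * x := by
      intro x y
      exact mul_comm (G := Abelianization G) x y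
    exact isSolvable_of_comm this
  · haveI hfg : Group.FG G := by
      have h3 := hC ⊥ FG.bot
      have h4 : Subgroup.centralizer ((⊥ : Subgroup G) : Set G) = ⊤ := by
        ext x
        simp [Subgroup.mem_centralizer_iff]
      rw [h4] at h3
      exact Group.fg_def.2 h3
    haveI : Group.FG (Abelianization G) := inferInstanceAs (Group.FG (G ⧸ commutator G))
    intro K
    exact MBP.fg_type_comm (C := Abelianization G) K

end Pool.Agent.Results.MP_3540e7_al.MetabelianByPolycyclic
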